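import Pool.Agent.W_7d29a1_X50.Jen
import Pool.Agent.W_7d29a1_F.LuckA

/-!
STORM X (MP_7d29a1_pr, `d = 1`, power superconcentration), section (ES), piece ESU: the excess of the cost of a slab at
the place of the polymer over a price `t` is controlled by the same excess of ONE pair of points. Jensen with the law
`Pi` of entrance and displacement in which the costs of the slab are replaced by the prices: `Pi` is independent of
the slab.
-/

namespace Pool.Agent.W_7d29a1_X97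

open MeasureTheory ProbabilityTheory Filter Topology
open Pool.Agent.W_7d29a1_F Pool.Agent.W_7d29a1_X50

noncomputable section

/-- The pure inequality. -/
theorem pure_esu {ι : Type*} (I : Finset ι) (A t X : ι → ℝ) (hA : ∀ i ∈ I, 0 < A i) (hI : I.Nonempty) :
    ∑ i ∈ I, A i * Real.exp (-X i) / (∑ j ∈ I, A j * Real.exp (-X j)) * (max (X i - t i) 0) ^ 2 ≤
      3 * (∑ i ∈ I, A i * Real.exp (-t i) / (∑ j ∈ I, A j * Real.exp (-t j)) * (max (X i - t i) 0) ^ 2) + 4 := by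
  obtain ⟨Z, hZ⟩ : ∃ Z : ℝ, Z = ∑ j ∈ I, A j * Real.exp (-X j) := ⟨_, rfl⟩
  obtain ⟨Q, hQ⟩ : ∃ Q : ℝ, Q = ∑ j ∈ I, A j * Real.exp (-t j) := ⟨_, rfl⟩
  obtain ⟨D, hD⟩ : ∃ D : ι → ℝ, D = fun i => max (X i - t i) 0 := ⟨_, rfl⟩
  obtain ⟨p, hp⟩ : ∃ p : ι → ℝ, p = fun i => A i * Real.exp (-t i) / Q := ⟨_, rfl⟩
  have hD0 : ∀ i, 0 ≤ D i := fun i => by rw [hD]; exact le_max_right _ _
  have hDX : ∀ i, X i ≤ t i + D i := fun i => by
    rw [hD]
    have := le_max_left (X i - t i) 0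
    show X i ≤ t i + max (X i - t i) 0
    linarith
  have hZ0 : 0 < Z := by
    rw [hZ]
    exact Finset.sum_pos (fun i hi => mul_pos (hA i hi) (Real.exp_pos _)) hI
  have hQ0 : 0 < Q := by
    rw [hQ]
    exact Finset.sum_pos (fun i hi => mul_pos (hA i hi) (Real.exp_pos _)) hI
  have hp0 : ∀ i ∈ I, 0 ≤ p i := fun i hi => by
    rw [hp]
    exact div_nonneg (mul_nonneg (hA i hi).le (Real.exp_pos _).le) hQ0.le
  have hp1 : ∑ i ∈ I, p i = 1 := by
    rw [hp]
    show ∑ i ∈ I, A i * Real.exp (-t i) / Q = 1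
    rw [← Finset.sum_div, ← hQ, div_self hQ0.ne']
  obtain ⟨Y, hY⟩ : ∃ Y : ℝ, Y = ∑ i ∈ I, p i * D i := ⟨_, rfl⟩
  have hY0 : 0 ≤ Y := by
    rw [hY]
    exact Finset.sum_nonneg fun i hi => mul_nonneg (hp0 i hi) (hD0 i)
  -- `Z` is not small
  have hZY : Q * Real.exp (-Y) ≤ Z := by
    have h1 := convexOn_exp.map_sum_le (t := I) (w := p) (p := fun i => -D i) hp0 hp1 (fun i _ => Set.mem_univ _)
    simp only [smul_eq_mul] at h1
    have h2 : ∑ i ∈ I, p i * -D i = -Y := by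
      rw [hY, ← Finset.sum_neg_distrib]
      exact Finset.sum_congr rfl fun i _ => by ring
    rw [h2] at h1
    calc Q * Real.exp (-Y) ≤ Q * ∑ i ∈ I, p i * Real.exp (-D i) := mul_le_mul_of_nonneg_left h1 hQ0.le
      _ = ∑ i ∈ I, A i * Real.exp (-t i) * Real.exp (-D i) := by
          rw [Finset.mul_sum]
          refine Finset.sum_congr rfl fun i _ => ?_
          rw [hp]
          show Q * (A i * Real.exp (-t i) / Q * Real.exp (-D i)) = _
          field_simp
      _ ≤ ∑ i ∈ I, A i * Real.exp (-X i) := by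
          refine Finset.sum_le_sum fun i hi => ?_
          rw [mul_assoc, ← Real.exp_add]
          refine mul_le_mul_of_nonneg_left (Real.exp_le_exp.2 ?_) (hA i hi).le
          have := hDX i
          linarith
      _ = Z := hZ.symm
  -- Jensen for the square
  have hY2 : Y ^ 2 ≤ ∑ i ∈ I, p i * D i ^ 2 := by
    have h3 := (even_two.convexOn_pow (𝕜 := ℝ)).map_sum_le (t := I) (w := p) (p := D) hp0 hp1
      (fun i _ => Set.mem_univ _)
    simp only [smul_eq_mul] at h3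
    rw [hY]
    exact h3
  -- pointwise
  have hpt : ∀ i ∈ I, A i * Real.exp (-X i) / Z * D i ^ 2 ≤
      A i * Real.exp (-X i) / Z * Y ^ 2 + p i * (2 * Y ^ 2 + 4) := by
    intro i hi
    have hG0 : 0 ≤ A i * Real.exp (-X i) / Z := div_nonneg (mul_nonneg (hA i hi).le (Real.exp_pos _).le) hZ0.le
    rcases le_or_gt (D i) Y with h1 | h1
    · have h2 : D i ^ 2 ≤ Y ^ 2 := pow_le_pow_left₀ (hD0 i) h1 2
      have h3 := mul_le_mul_of_nonneg_left h2 hG0
      have h4 : 0 ≤ p i * (2 * Y ^ 2 + 4) := mul_nonneg (hp0 i hi) (by positivity)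
      linarith
    · have hDpos : 0 < D i := lt_of_le_of_lt hY0 h1
      have hXe : X i = t i + D i := by
        have h2 : D i = max (X i - t i) 0 := by rw [hD]
        rcases le_or_gt (X i - t i) 0 with h3 | h3
        · rw [max_eq_right h3] at h2
          linarith
        · rw [max_eq_left h3.le] at h2
          linarith
      have hGp : A i * Real.exp (-X i) / Z ≤ p i * Real.exp (-(D i - Y)) := by
        rw [div_le_iff₀ hZ0]
        have h2 : p i * Real.exp (-(D i - Y)) * (Q * Real.exp (-Y)) = A i * Real.exp (-X i) := by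
          rw [hp, hXe]
          show A i * Real.exp (-t i) / Q * Real.exp (-(D i - Y)) * (Q * Real.exp (-Y)) = _
          have h3 : Real.exp (-(t i + D i)) = Real.exp (-t i) * (Real.exp (-(D i - Y)) * Real.exp (-Y)) := by
            rw [← Real.exp_add, ← Real.exp_add]
            congr 1
            ring
          rw [h3]
          field_simp
        rw [← h2]
        exact mul_le_mul_of_nonneg_left hZY (mul_nonneg (hp0 i hi) (Real.exp_pos _).le)
      have hs : (D i - Y) ^ 2 * Real.exp (-(D i - Y)) ≤ 2 := by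
        have h2 := Real.quadratic_le_exp_of_nonneg (x := D i - Y) (by linarith)
        have h3 : (D i - Y) ^ 2 ≤ 2 * Real.exp (D i - Y) := by
          have : 0 ≤ D i - Y := by linarith
          linarith
        calc (D i - Y) ^ 2 * Real.exp (-(D i - Y)) ≤ 2 * Real.exp (D i - Y) * Real.exp (-(D i - Y)) :=
              mul_le_mul_of_nonneg_right h3 (Real.exp_pos _).le
          _ = 2 := by rw [mul_assoc, ← Real.exp_add, add_neg_cancel, Real.exp_zero, mul_one]
      have he1 : Real.exp (-(D i - Y)) ≤ 1 := Real.exp_le_one_iff.2 (by linarith)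
      have hsq : D i ^ 2 ≤ 2 * Y ^ 2 + 2 * (D i - Y) ^ 2 := by nlinarith [sq_nonneg (Y - (D i - Y))]
      have h5 : Real.exp (-(D i - Y)) * D i ^ 2 ≤ 2 * Y ^ 2 + 4 := by
        calc Real.exp (-(D i - Y)) * D i ^ 2 ≤ Real.exp (-(D i - Y)) * (2 * Y ^ 2 + 2 * (D i - Y) ^ 2) :=
              mul_le_mul_of_nonneg_left hsq (Real.exp_pos _).le
          _ = Real.exp (-(D i - Y)) * (2 * Y ^ 2) + 2 * ((D i - Y) ^ 2 * Real.exp (-(D i - Y))) := by ring
          _ ≤ 1 * (2 * Y ^ 2) + 2 * 2 := by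
              have h6 := mul_le_mul_of_nonneg_right he1 (show (0 : ℝ) ≤ 2 * Y ^ 2 by positivity)
              linarith
          _ = 2 * Y ^ 2 + 4 := by ring
      have h7 : A i * Real.exp (-X i) / Z * D i ^ 2 ≤ p i * (2 * Y ^ 2 + 4) := by
        calc A i * Real.exp (-X i) / Z * D i ^ 2 ≤ p i * Real.exp (-(D i - Y)) * D i ^ 2 :=
              mul_le_mul_of_nonneg_right hGp (sq_nonneg _)
          _ = p i * (Real.exp (-(D i - Y)) * D i ^ 2) := by ring
          _ ≤ _ := mul_le_mul_of_nonneg_left h5 (hp0 i hi)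
      have h8 : 0 ≤ A i * Real.exp (-X i) / Z * Y ^ 2 := mul_nonneg hG0 (sq_nonneg _)
      linarith
  have hG1 : ∑ i ∈ I, A i * Real.exp (-X i) / Z = 1 := by
    rw [← Finset.sum_div, ← hZ, div_self hZ0.ne']
  rw [← hZ, ← hQ]
  have hfin := Finset.sum_le_sum hpt
  rw [Finset.sum_add_distrib, ← Finset.sum_mul, ← Finset.sum_mul, hG1, hp1] at hfin
  have e1 : ∑ i ∈ I, A i * Real.exp (-X i) / Z * (max (X i - t i) 0) ^ 2 =
      ∑ i ∈ I, A i * Real.exp (-X i) / Z * D i ^ 2 := by rw [hD]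
  have e2 : ∑ i ∈ I, A i * Real.exp (-t i) / Q * (max (X i - t i) 0) ^ 2 = ∑ i ∈ I, p i * D i ^ 2 := by rw [hD, hp]
  rw [e1, e2]
  linarith

variable {μ : Measure ℝ} {s : ℝ}

/-- The law of entrance and displacement in which the costs of the slab are replaced by the prices `t`. -/
def Pit (μ : Measure ℝ) (s : ℝ) (t : ℤ × ℤ → ℝ) (η : Env) (a m k : ℕ) (q : ℤ × ℤ) : ℝ :=
  Aw μ s η a m k q * Real.exp (-t q) / ∑ r ∈ Pr a m, Aw μ s η a m k r * Real.exp (-t r)

theorem Pr_nonempty (a m : ℕ) : (Pr a m).Nonempty := ⟨(0, 0), by rw [mem_Pr]; simp⟩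

theorem Aw_pos (η : Env) {a m : ℕ} (k : ℕ) {q : ℤ × ℤ} (hq : q ∈ Pr a m) : 0 < Aw μ s η a m k q :=
  mul_pos (W_pos _ _ (mem_Pr.1 hq).1.1 (mem_Pr.1 hq).1.2) (Real.exp_pos _)

theorem Pit_nonneg (t : ℤ × ℤ → ℝ) (η : Env) (a m k : ℕ) (q : ℤ × ℤ) : 0 ≤ Pit μ s t η a m k q :=
  div_nonneg (mul_nonneg (Aw_nonneg _ _ _ _ _) (Real.exp_pos _).le)
    (Finset.sum_nonneg fun _ _ => mul_nonneg (Aw_nonneg _ _ _ _ _) (Real.exp_pos _).le)

theorem Pit_sum (t : ℤ × ℤ → ℝ) (η : Env) (a m k : ℕ) : ∑ q ∈ Pr a m, Pit μ s t η a m k q = 1 := by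
  unfold Pit
  rw [← Finset.sum_div, div_self]
  exact (Finset.sum_pos (fun q hq => mul_pos (Aw_pos η k hq) (Real.exp_pos _)) (Pr_nonempty a m)).ne'

theorem Pit_le_one (t : ℤ × ℤ → ℝ) (η : Env) (a m k : ℕ) {q : ℤ × ℤ} (hq : q ∈ Pr a m) :
    Pit μ s t η a m k q ≤ 1 := by
  rw [← Pit_sum (μ := μ) (s := s) t η a m k]
  exact Finset.single_le_sum (f := fun q => Pit μ s t η a m k q) (fun q _ => Pit_nonneg t η a m k q) hq

theorem measurable_Aw (a m k : ℕ) (q : ℤ × ℤ) : Measurable fun η : Env => Aw μ s η a m k q := by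
  unfold Aw
  exact (measurable_W 0 a q.1).mul (Real.measurable_exp.comp (measurable_V _ k))

theorem measurable_Pit (t : ℤ × ℤ → ℝ) (a m k : ℕ) (q : ℤ × ℤ) : Measurable fun η : Env => Pit μ s t η a m k q := by
  unfold Pit
  exact ((measurable_Aw a m k q).mul_const _).div
    (Finset.measurable_sum _ fun r _ => (measurable_Aw a m k r).mul_const _)

theorem Pit_dep (t : ℤ × ℤ → ℝ) (a m k : ℕ) (q : ℤ × ℤ) :
    DependsOn (fun η : Env => Pit μ s t η a m k q) (rows (a : ℤ) (a + m))ᶜ := by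
  intro g h hgh
  have h1 : ∀ r, Aw μ s g a m k r = Aw μ s h a m k r := fun r => Aw_congr (fun p hp => hgh p hp) r
  show Pit μ s t g a m k q = Pit μ s t h a m k q
  unfold Pit
  simp only [h1]

/-- The pointwise form. -/
theorem esu_pt (t : ℤ × ℤ → ℝ) (η : Env) (a m k : ℕ) :
    ∑ q ∈ Pr a m, Gn μ s η a m k q * (max (X μ s η ((a : ℤ), q.1) m q.2 - t q) 0) ^ 2 ≤
      3 * (∑ q ∈ Pr a m, Pit μ s t η a m k q * (max (X μ s η ((a : ℤ), q.1) m q.2 - t q) 0) ^ 2) + 4 := by
  have h1 := pure_esu (Pr a m) (fun q => Aw μ s η a m k q) t (fun q => X μ s η ((a : ℤ), q.1) m q.2)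
    (fun q hq => Aw_pos η k hq) (Pr_nonempty a m)
  have h2 : ∀ q ∈ Pr a m, Real.exp (-X μ s η ((a : ℤ), q.1) m q.2) = W μ s η ((a : ℤ), q.1) m q.2 := fun q hq => by
    unfold X
    rw [neg_neg, Real.exp_log (W_pos _ _ (mem_Pr.1 hq).2.1 (mem_Pr.1 hq).2.2)]
  have h3 : ∑ j ∈ Pr a m, Aw μ s η a m k j * Real.exp (-X μ s η ((a : ℤ), j.1) m j.2) =
      Real.exp (V μ s η 0 (a + m + k)) := by
    rw [exp_slab]
    exact Finset.sum_congr rfl fun q hq => by rw [h2 q hq]
  rw [h3] at h1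
  refine le_trans (le_of_eq ?_) h1
  refine Finset.sum_congr rfl fun q hq => ?_
  rw [h2 q hq]
  rfl

variable [IsProbabilityMeasure μ]

/-- The law of a cost does not depend on the start. -/
theorem integral_X_fun {f : ℝ → ℝ} (hf : Measurable f) (a : Pt) (n : ℕ) (y : ℤ) :
    ∫ η, f (X μ s η a n y) ∂(law μ) = ∫ η, f (X μ s η 0 n y) ∂(law μ) := by
  have h := (mp_sh (μ := μ) a).map_eq
  have hm : Measurable fun η : Env => f (X μ s η 0 n y) := hf.comp (measurable_X 0 n y)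
  conv_rhs => rw [← h]
  rw [integral_map (mp_sh (μ := μ) a).measurable.aemeasurable hm.aestronglyMeasurable]
  refine integral_congr_ae (Filter.Eventually.of_forall fun η => ?_)
  show f (X μ s η a n y) = f (X μ s (sh a η) 0 n y)
  rw [X_sh, zero_add]

/-- ESU, general prices `t q` (entrance and displacement). -/
theorem esu_gen (hμ : Pool.Agent.W_7d29a1_h47.EM μ) (a m k : ℕ) (t : ℤ × ℤ → ℝ) {B : ℝ}
    (hB : ∀ q ∈ Pr a m, ∫ η, (max (X μ s η 0 m q.2 - t q) 0) ^ 2 ∂(law μ) ≤ B) :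
    ∫ η, ∑ q ∈ Pr a m, Gn μ s η a m k q * (max (X μ s η ((a : ℤ), q.1) m q.2 - t q) 0) ^ 2 ∂(law μ) ≤
      3 * B + 4 := by
  have hX : ∀ q ∈ Pr a m, Sub fun η : Env => max (X μ s η ((a : ℤ), q.1) m q.2 - t q) 0 := fun q hq =>
    ((Sub_X _ (mem_Pr.1 hq).2.1 (mem_Pr.1 hq).2.2).sub (Sub.const _)).max (Sub.const 0)
  have i1 : ∀ q ∈ Pr a m, Integrable (fun η : Env => (max (X μ s η ((a : ℤ), q.1) m q.2 - t q) 0) ^ 2) (law μ) :=
    fun q hq => (hX q hq).sq_integrable hμ
  have i2 : ∀ q ∈ Pr a m, Integrable (fun η : Env => Gn μ s η a m k q *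
      (max (X μ s η ((a : ℤ), q.1) m q.2 - t q) 0) ^ 2) (law μ) := fun q hq => integrable_Gn_mul hq (i1 q hq)
  have i3 : ∀ q ∈ Pr a m, Integrable (fun η : Env => Pit μ s t η a m k q *
      (max (X μ s η ((a : ℤ), q.1) m q.2 - t q) 0) ^ 2) (law μ) := fun q hq => by
    refine (i1 q hq).bdd_mul (c := 1) (measurable_Pit t a m k q).aestronglyMeasurable
      (Eventually.of_forall fun η => ?_)
    rw [Real.norm_eq_abs, abs_of_nonneg (Pit_nonneg _ _ _ _ _ _)]
    exact Pit_le_one t η a m k hq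
  have i4 : ∀ q ∈ Pr a m, Integrable (fun η : Env => Pit μ s t η a m k q) (law μ) := fun q hq => by
    have h1 : Integrable (fun η : Env => Pit μ s t η a m k q * 1) (law μ) := by
      refine (integrable_const (1 : ℝ)).bdd_mul (c := 1) (measurable_Pit t a m k q).aestronglyMeasurable
        (Eventually.of_forall fun η => ?_)
      rw [Real.norm_eq_abs, abs_of_nonneg (Pit_nonneg _ _ _ _ _ _)]
      exact Pit_le_one t η a m k hq
    simpa using h1
  have h1 : ∫ η, ∑ q ∈ Pr a m, Gn μ s η a m k q * (max (X μ s η ((a : ℤ), q.1) m q.2 - t q) 0) ^ 2 ∂(law μ) ≤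
      ∫ η, (3 * (∑ q ∈ Pr a m, Pit μ s t η a m k q * (max (X μ s η ((a : ℤ), q.1) m q.2 - t q) 0) ^ 2) + 4)
        ∂(law μ) :=
    integral_mono (integrable_finsetSum _ i2) (((integrable_finsetSum _ i3).const_mul 3).add (integrable_const 4))
      fun η => esu_pt t η a m k
  refine h1.trans ?_
  rw [integral_add ((integrable_finsetSum _ i3).const_mul 3) (integrable_const 4), integral_const_mul,
    integral_finsetSum _ i3, integral_const, probReal_univ, one_smul]
  have h2 : ∀ q ∈ Pr a m, ∫ η, Pit μ s t η a m k q * (max (X μ s η ((a : ℤ), q.1) m q.2 - t q) 0) ^ 2 ∂(law μ) ≤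
      (∫ η, Pit μ s t η a m k q ∂(law μ)) * B := by
    intro q hq
    have hdep : DependsOn (fun η : Env => (max (X μ s η ((a : ℤ), q.1) m q.2 - t q) 0) ^ 2) (rows (a : ℤ) (a + m)) := by
      intro g h hgh
      show (max (X μ s g ((a : ℤ), q.1) m q.2 - t q) 0) ^ 2 = (max (X μ s h ((a : ℤ), q.1) m q.2 - t q) 0) ^ 2
      rw [X_congr hgh]
    rw [integral_indep (measurable_Pit t a m k q) ((hX q hq).1.pow_const 2) (Pit_dep t a m k q) hdep
      disjoint_compl_left, integral_X_fun (μ := μ) (s := s) (f := fun x => (max (x - t q) 0) ^ 2)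
      (((measurable_id.sub_const _).max measurable_const).pow_const 2)]
    exact mul_le_mul_of_nonneg_left (hB q hq) (integral_nonneg fun η => Pit_nonneg t η a m k q)
  have h3 := Finset.sum_le_sum h2
  rw [← Finset.sum_mul, ← integral_finsetSum _ i4] at h3
  have h4 : ∫ η, ∑ q ∈ Pr a m, Pit μ s t η a m k q ∂(law μ) = 1 := by
    simp only [Pit_sum, integral_const, probReal_univ, one_smul]
  rw [h4, one_mul] at h3
  linarith

/-- ESU: the excess of the cost of the block `(a, a + n]` of `[0, a + n + k]` over the price `t` of the displacement, at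
the place of the polymer, from the same excess of one pair of points. -/
theorem esu (hμ : Pool.Agent.W_7d29a1_h47.EM μ) (a n k : ℕ) (t : ℤ → ℝ) {B : ℝ}
    (hB : ∀ y : ℤ, 0 ≤ y → y ≤ n → ∫ η, (max (X μ s η 0 n y - t y) 0) ^ 2 ∂(law μ) ≤ B) :
    ∫ η, ∑ q ∈ Pr a n, Gn μ s η a n k q * (max (X μ s η ((a : ℤ), q.1) n q.2 - t q.2) 0) ^ 2 ∂(law μ) ≤
      3 * B + 4 :=
  esu_gen hμ a n k (fun q => t q.2) fun q hq => hB q.2 (mem_Pr.1 hq).2.1 (mem_Pr.1 hq).2.2

end

end Pool.Agent.W_7d29a1_X97
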