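import Pool.Agent.W_7d29a1_X50.Jen
import Pool.Agent.W_7d29a1_SR.Mom

/-!
STORM X (MP_7d29a1_pr, `d = 1`, power superconcentration), proofs row 643, section (5.4), ROOTS: for every block of rows
`(a, a + n]` of the polymer of length `N = a + n + k` the cost of the block at the place of the polymer is at most of the
order of the unit `EE μ N`, in mean square; the same for the luck.

If `p` is the Gibbs probability of the two positions then `X = log (1/p) - X(0 -> x_a) + V(x_(a+n)) - V_N`; the luck of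
a far site is at most `Y` plus half of the tilt at the site, and the tilt at the site is at most
`log (1/p) + M + Y - V_N`, because the site carries the mass `p`. So all is `2 log (1/p) + 2 M + 2 Y - 2 V_N` at most.
-/

namespace Pool.Agent.W_7d29a1_X97

open MeasureTheory ProbabilityTheory Filter Topology
open Pool.Agent.W_7d29a1_F Pool.Agent.W_7d29a1_h4g Pool.Agent.W_7d29a1_G Pool.Agent.W_7d29a1_L
open Pool.Agent.W_7d29a1_SR
open Pool.Agent.W_7d29a1_X50 hiding St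

noncomputable section

/-! ### Pure facts -/

/-- The second moment of the information. -/
theorem pure_log {ι : Type*} (I : Finset ι) (p : ι → ℝ) (h0 : ∀ i ∈ I, 0 < p i) (h1 : ∑ i ∈ I, p i = 1) :
    ∑ i ∈ I, p i * (-Real.log (p i)) ^ 2 ≤ 2 * (Real.log (I.card : ℝ)) ^ 2 + 4 := by
  have hne : I.Nonempty := by
    rw [Finset.nonempty_iff_ne_empty]
    intro h
    rw [h, Finset.sum_empty] at h1
    exact zero_ne_one h1
  have hc : 1 ≤ (I.card : ℝ) := by exact_mod_cast hne.card_pos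
  have hc0 : (0 : ℝ) < I.card := by linarith
  obtain ⟨L, hL⟩ : ∃ L : ℝ, L = Real.log (I.card : ℝ) := ⟨_, rfl⟩
  have hL0 : 0 ≤ L := by rw [hL]; exact Real.log_nonneg hc
  have hpt : ∀ i ∈ I, p i * (-Real.log (p i)) ^ 2 ≤ 2 * L ^ 2 * p i + 4 / (I.card : ℝ) := by
    intro i hi
    have hp := h0 i hi
    obtain ⟨e, he⟩ : ∃ e : ℝ, e = -Real.log (p i) := ⟨_, rfl⟩
    have hpe : p i = Real.exp (-e) := by rw [he, neg_neg, Real.exp_log hp]
    have hp1 : p i ≤ 1 := by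
      rw [← h1]
      exact Finset.single_le_sum (fun j hj => (h0 j hj).le) hi
    have he0 : 0 ≤ e := by
      rw [he]
      have := Real.log_nonpos hp.le hp1
      linarith
    obtain ⟨m, hm⟩ : ∃ m : ℝ, m = max (e - L) 0 := ⟨_, rfl⟩
    have hm0 : 0 ≤ m := by rw [hm]; exact le_max_right _ _
    have hem : e ≤ L + m := by
      have := le_max_left (e - L) 0
      rw [hm]
      linarith
    have h2 : e ^ 2 ≤ 2 * L ^ 2 + 2 * m ^ 2 := by
      have h3 : e ^ 2 ≤ (L + m) ^ 2 := pow_le_pow_left₀ he0 hem 2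
      nlinarith [sq_nonneg (L - m)]
    have h4 : m ^ 2 ≤ 2 * Real.exp (e - L) := by
      rcases le_total (e - L) 0 with h5 | h5
      · rw [hm, max_eq_right h5]
        have := Real.exp_pos (e - L)
        norm_num
        linarith
      · rw [hm, max_eq_left h5]
        have h6 := Real.pow_div_factorial_le_exp (e - L) h5 2
        norm_num at h6
        linarith
    have h7 : p i * Real.exp (e - L) = 1 / (I.card : ℝ) := by
      have h8 : Real.exp L = (I.card : ℝ) := by rw [hL, Real.exp_log hc0]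
      rw [hpe, ← Real.exp_add, ← h8, one_div, ← Real.exp_neg]
      congr 1
      ring
    rw [← he]
    calc p i * e ^ 2 ≤ p i * (2 * L ^ 2 + 2 * (2 * Real.exp (e - L))) :=
          mul_le_mul_of_nonneg_left (by linarith) hp.le
      _ = 2 * L ^ 2 * p i + 4 * (p i * Real.exp (e - L)) := by ring
      _ = 2 * L ^ 2 * p i + 4 / (I.card : ℝ) := by rw [h7]; ring
  refine (Finset.sum_le_sum hpt).trans (le_of_eq ?_)
  rw [Finset.sum_add_distrib, ← Finset.mul_sum, h1, Finset.sum_const, nsmul_eq_mul, ← hL]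
  field_simp

theorem summable_exp_abs {κ : ℝ} (hκ : 0 < κ) : Summable fun j : ℤ => Real.exp (-(κ * |(j : ℝ)|)) := by
  have h1 : Summable fun n : ℕ => Real.exp ((n : ℝ) * -κ) := Real.summable_exp_nat_mul_iff.2 (by linarith)
  refine Summable.of_nat_of_neg ?_ ?_
  · refine h1.congr fun n => ?_
    congr 1
    rw [Int.cast_natCast, abs_of_nonneg (Nat.cast_nonneg n)]
    ring
  · refine h1.congr fun n => ?_
    congr 1
    rw [Int.cast_neg, Int.cast_natCast, abs_neg, abs_of_nonneg (Nat.cast_nonneg n)]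
    ring

/-! ### The random variables -/

variable {μ : Measure ℝ}

/-- The tilted lucks of the cell of the origin. -/
def M1 (μ : Measure ℝ) (t w : ℝ) (N : ℕ) (η : Env) : ℝ :=
  Mh μ 0 (1 / 2) t w (-(w / 2)) (4 * N) η + Mh μ 0 (1 / 2) (-t) w (-(w / 2)) (4 * N) η

/-- The luck of all cells with a price for the distance. -/
def RR (μ : Measure ℝ) (D b w : ℝ) (N : ℕ) (η : Env) : ℝ :=
  ∑ j ∈ Finset.Icc (-((N : ℤ) + 1)) ((N : ℤ) + 1),
    Real.exp ((Mh μ 0 (1 / 2) 0 w ((j : ℝ) * w) (4 * N) η - b * |(j : ℝ)|) / D)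

theorem RR_nonneg (D b w : ℝ) (N : ℕ) (η : Env) : 0 ≤ RR μ D b w N η :=
  Finset.sum_nonneg fun _ _ => (Real.exp_pos _).le

theorem T0 (η : Env) (a : Pt) (m : ℕ) : T μ 0 (1 / 2) 0 η a m = V μ 0 η a m := by
  unfold T kap
  simp

theorem W_le_T {h : ℝ} (η : Env) (a : Pt) (n : ℕ) (y : ℤ) :
    W μ 0 η a n y ≤ Real.exp (T μ 0 (1 / 2) h η a n - h * ((y : ℝ) - 1 / 2 * n)) := by
  by_cases hy : 0 ≤ y ∧ y ≤ n
  · have h1 := exp_T (μ := μ) (s := 0) (v := 1 / 2) (h := h) η a n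
    have h2 : W μ 0 η a n y * Real.exp (h * ((y : ℝ) - 1 / 2 * n)) ≤ Real.exp (T μ 0 (1 / 2) h η a n) := by
      rw [h1]
      exact Finset.single_le_sum (f := fun y : ℤ => W μ 0 η a n y * Real.exp (h * ((y : ℝ) - 1 / 2 * n)))
        (fun y _ => mul_nonneg (W_nonneg _ _ _ _) (Real.exp_nonneg _)) (Finset.mem_Icc.2 hy)
    rw [Real.exp_sub, le_div_iff₀ (Real.exp_pos _)]
    exact h2
  · rw [W_eq_zero η a hy]
    exact (Real.exp_pos _).le

/-- A displacement pays the tilt. -/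
theorem W_le_M1 {t w : ℝ} (hw : 0 < w) {N r : ℕ} (hr : r ≤ N) (η : Env) (x : ℤ) :
    W μ 0 η 0 r x ≤ Real.exp (M1 μ t w N η - t * |(x : ℝ) - 1 / 2 * r|) := by
  obtain ⟨A1, hA1⟩ : ∃ A1 : ℝ, A1 = Mh μ 0 (1 / 2) t w (-(w / 2)) (4 * N) η := ⟨_, rfl⟩
  obtain ⟨A2, hA2⟩ : ∃ A2 : ℝ, A2 = Mh μ 0 (1 / 2) (-t) w (-(w / 2)) (4 * N) η := ⟨_, rfl⟩
  have hM : M1 μ t w N η = A1 + A2 := by
    rw [hA1, hA2]
    rfl
  have n1 : 0 ≤ A1 := by rw [hA1]; exact Mh_nonneg η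
  have n2 : 0 ≤ A2 := by rw [hA2]; exact Mh_nonneg η
  rw [hM]
  have hB : (((0 : ℕ), (0 : ℤ)), r) ∈ Bx (1 / 2) w (-(w / 2)) (4 * N) := by
    rw [mem_Bx (by norm_num) (by norm_num)]
    refine ⟨?_, ?_, ?_⟩
    · show 0 + r ≤ 4 * N
      omega
    · show -(w / 2) < ((0 : ℤ) : ℝ) - 1 / 2 * ((0 : ℕ) : ℝ)
      push_cast
      linarith
    · show ((0 : ℤ) : ℝ) - 1 / 2 * ((0 : ℕ) : ℝ) ≤ -(w / 2) + w
      push_cast
      linarith
  have e0 : (((0 : ℕ) : ℤ), (0 : ℤ)) = (0 : Pt) := rfl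
  have l1 : T μ 0 (1 / 2) t η 0 r ≤ A1 := by
    rw [hA1, ← e0]
    exact le_Mh (μ := μ) (s := 0) (v := 1 / 2) (h := t) (w := w) (z := -(w / 2)) (n := 4 * N) η
      (q := (((0 : ℕ), (0 : ℤ)), r)) hB
  have l2 : T μ 0 (1 / 2) (-t) η 0 r ≤ A2 := by
    rw [hA2, ← e0]
    exact le_Mh (μ := μ) (s := 0) (v := 1 / 2) (h := -t) (w := w) (z := -(w / 2)) (n := 4 * N) η
      (q := (((0 : ℕ), (0 : ℤ)), r)) hB
  have k1 := W_le_T (μ := μ) (h := t) η 0 r x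
  have k2 := W_le_T (μ := μ) (h := -t) η 0 r x
  obtain ⟨T1, hT1⟩ : ∃ T1 : ℝ, T1 = T μ 0 (1 / 2) t η 0 r := ⟨_, rfl⟩
  obtain ⟨T2, hT2⟩ : ∃ T2 : ℝ, T2 = T μ 0 (1 / 2) (-t) η 0 r := ⟨_, rfl⟩
  rw [← hT1] at l1 k1
  rw [← hT2] at l2 k2
  obtain ⟨z, hz⟩ : ∃ z : ℝ, z = (x : ℝ) - 1 / 2 * r := ⟨_, rfl⟩
  rw [← hz] at k1 k2 ⊢
  rcases le_total 0 z with h1 | h1
  · rw [abs_of_nonneg h1]
    refine k1.trans (Real.exp_le_exp.2 ?_)
    linarith
  · rw [abs_of_nonpos h1]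
    refine k2.trans (Real.exp_le_exp.2 ?_)
    linarith

/-- The luck of a site, against the price of its distance. -/
theorem V_le_RR {D b w : ℝ} (hD : 0 < D) (hb : 0 ≤ b) (hw : 1 ≤ w) {N r m : ℕ} (hr : r ≤ N) (hm : m ≤ N) (η : Env)
    {x : ℤ} (hx0 : 0 ≤ x) (hx1 : x ≤ r) :
    V μ 0 η ((r : ℤ), x) m ≤ D * Real.log (1 + RR μ D b w N η) + b + b / w * |(x : ℝ) - 1 / 2 * r| := by
  have hw0 : 0 < w := by linarith
  obtain ⟨z, hz⟩ : ∃ z : ℝ, z = (x : ℝ) - 1 / 2 * r := ⟨_, rfl⟩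
  rw [← hz]
  have hx0' : (0 : ℝ) ≤ x := by exact_mod_cast hx0
  have hx1' : (x : ℝ) ≤ r := by exact_mod_cast hx1
  have hrN : (r : ℝ) ≤ N := by exact_mod_cast hr
  have hz1 : |z| ≤ N := by
    rw [abs_le, hz]
    constructor <;> linarith
  obtain ⟨j, hj⟩ : ∃ j : ℤ, j = ⌈z / w⌉ - 1 := ⟨_, rfl⟩
  have j1 : (j : ℝ) * w < z := by
    have h1 := Int.ceil_lt_add_one (z / w)
    have h2 : (j : ℝ) < z / w := by
      rw [hj]
      push_cast
      linarith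
    exact (lt_div_iff₀ hw0).1 h2
  have j2 : z ≤ (j : ℝ) * w + w := by
    have h1 := Int.le_ceil (z / w)
    have h2 : z / w ≤ (j : ℝ) + 1 := by
      rw [hj]
      push_cast
      linarith
    have h3 := (div_le_iff₀ hw0).1 h2
    linarith
  have hjz : |(j : ℝ)| ≤ |z| / w + 1 := by
    have h1 : |(j : ℝ)| * w ≤ |z| + w := by
      rw [← abs_of_pos hw0, ← abs_mul, abs_of_pos hw0]
      rw [abs_le]
      have h2 := neg_abs_le z
      have h3 := le_abs_self z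
      constructor <;> linarith
    have h4 : |(j : ℝ)| ≤ (|z| + w) / w := (le_div_iff₀ hw0).2 h1
    rwa [add_div, div_self hw0.ne'] at h4
  have hjN : |(j : ℝ)| ≤ N + 1 := by
    have h1 : |z| / w ≤ |z| := div_le_self (abs_nonneg z) hw
    linarith
  have hjm : j ∈ Finset.Icc (-((N : ℤ) + 1)) ((N : ℤ) + 1) := by
    rw [Finset.mem_Icc]
    rw [abs_le] at hjN
    constructor
    · have : ((-((N : ℤ) + 1) : ℤ) : ℝ) ≤ (j : ℝ) := by
        push_cast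
        linarith [hjN.1]
      exact_mod_cast this
    · have : (j : ℝ) ≤ (((N : ℤ) + 1 : ℤ) : ℝ) := by
        push_cast
        linarith [hjN.2]
      exact_mod_cast this
  have hB : ((r, x), m) ∈ Bx (1 / 2) w ((j : ℝ) * w) (4 * N) := by
    rw [mem_Bx (by norm_num) (by norm_num)]
    refine ⟨?_, ?_, ?_⟩
    · show r + m ≤ 4 * N
      omega
    · show (j : ℝ) * w < (x : ℝ) - 1 / 2 * (r : ℝ)
      rw [← hz]
      exact j1
    · show (x : ℝ) - 1 / 2 * (r : ℝ) ≤ (j : ℝ) * w + w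
      rw [← hz]
      exact j2
  obtain ⟨f, hf⟩ : ∃ f : ℤ → ℝ, f = fun j : ℤ => Mh μ 0 (1 / 2) 0 w ((j : ℝ) * w) (4 * N) η := ⟨_, rfl⟩
  have hfj : f j = Mh μ 0 (1 / 2) 0 w ((j : ℝ) * w) (4 * N) η := by rw [hf]
  obtain ⟨R, hR⟩ : ∃ R : ℝ, R = RR μ D b w N η := ⟨_, rfl⟩
  have hR2 : R = ∑ j ∈ Finset.Icc (-((N : ℤ) + 1)) ((N : ℤ) + 1), Real.exp ((f j - b * |(j : ℝ)|) / D) := by
    rw [hR, hf]
    rfl
  obtain ⟨V0, hV0⟩ : ∃ V0 : ℝ, V0 = V μ 0 η ((r : ℤ), x) m := ⟨_, rfl⟩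
  rw [← hR, ← hV0]
  have l1 : V0 ≤ f j := by
    rw [hV0, ← T0, hfj]
    exact le_Mh (μ := μ) (s := 0) (v := 1 / 2) (h := 0) (w := w) (z := (j : ℝ) * w) (n := 4 * N) η
      (q := ((r, x), m)) hB
  have hR3 : Real.exp ((f j - b * |(j : ℝ)|) / D) ≤ 1 + R := by
    have h1 : Real.exp ((f j - b * |(j : ℝ)|) / D) ≤ R := by
      rw [hR2]
      exact Finset.single_le_sum (f := fun j : ℤ => Real.exp ((f j - b * |(j : ℝ)|) / D))
        (fun _ _ => (Real.exp_pos _).le) hjm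
    linarith
  have hlog : (f j - b * |(j : ℝ)|) / D ≤ Real.log (1 + R) := by
    have h1 := Real.log_le_log (Real.exp_pos _) hR3
    rwa [Real.log_exp] at h1
  have h2 : f j - b * |(j : ℝ)| ≤ D * Real.log (1 + R) := by
    rw [div_le_iff₀ hD] at hlog
    linarith
  have h3 : b * |(j : ℝ)| ≤ b * (|z| / w + 1) := mul_le_mul_of_nonneg_left hjz hb
  have h4 : b * (|z| / w + 1) = b + b / w * |z| := by ring
  linarith

/-- DETERMINISTIC: cost and luck of the block at the position `q`, against the information. -/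
theorem det_root {D b w t : ℝ} (hD : 0 < D) (hb : 0 ≤ b) (hw : 1 ≤ w) (ht : t = 2 * b / w) (η : Env) (a n k : ℕ)
    {q : ℤ × ℤ} (hq : q ∈ Pr a n) :
    |X μ 0 η ((a : ℤ), q.1) n q.2| ≤ 2 * -Real.log (Gn μ 0 η a n k q) + 2 * M1 μ t w (a + n + k) η +
      2 * (D * Real.log (1 + RR μ D b w (a + n + k) η)) + 2 * b + 2 * max (-V μ 0 η 0 (a + n + k)) 0 := by
  obtain ⟨⟨x0, x1⟩, ⟨y0, y1⟩⟩ := mem_Pr.1 hq
  obtain ⟨N, hN⟩ : ∃ N : ℕ, N = a + n + k := ⟨_, rfl⟩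
  rw [← hN]
  have hw0 : 0 < w := by linarith
  obtain ⟨Y, hY⟩ : ∃ Y : ℝ, Y = D * Real.log (1 + RR μ D b w N η) := ⟨_, rfl⟩
  rw [← hY]
  obtain ⟨M, hM⟩ : ∃ M : ℝ, M = M1 μ t w N η := ⟨_, rfl⟩
  rw [← hM]
  have hY0 : 0 ≤ Y := by
    rw [hY]
    exact mul_nonneg hD.le (Real.log_nonneg (by have := RR_nonneg (μ := μ) D b w N η; linarith))
  have hM0 : 0 ≤ M := by
    rw [hM]
    exact add_nonneg (Mh_nonneg η) (Mh_nonneg η)
  -- the pieces
  have p1 := W_pos (μ := μ) (s := 0) η 0 x0 (show q.1 ≤ ((a : ℕ) : ℤ) from x1)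
  have p2 := W_pos (μ := μ) (s := 0) η ((a : ℤ), q.1) y0 y1
  obtain ⟨V', hV'⟩ : ∃ V' : ℝ, V' = V μ 0 η ((a : ℤ) + n, q.1 + q.2) k := ⟨_, rfl⟩
  obtain ⟨F, hF⟩ : ∃ F : ℝ, F = V μ 0 η 0 N := ⟨_, rfl⟩
  obtain ⟨P, hP⟩ : ∃ P : ℝ, P = X μ 0 η ((a : ℤ), q.1) n q.2 := ⟨_, rfl⟩
  obtain ⟨e, he⟩ : ∃ e : ℝ, e = -Real.log (Gn μ 0 η a n k q) := ⟨_, rfl⟩
  rw [← he, ← hP, ← hF]
  have hG : Gn μ 0 η a n k q = W μ 0 η 0 a q.1 * Real.exp V' * W μ 0 η ((a : ℤ), q.1) n q.2 / Real.exp F := by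
    unfold Gn Aw
    rw [hV', hF, hN]
  have hG0 : 0 < Gn μ 0 η a n k q := by
    rw [hG]
    positivity
  have hG1 : Gn μ 0 η a n k q ≤ 1 := Gn_le_one η a n k hq
  have he0 : 0 ≤ e := by
    rw [he]
    have := Real.log_nonpos hG0.le hG1
    linarith
  have hlogG : -e = Real.log (W μ 0 η 0 a q.1) + V' + -P - F := by
    rw [he, neg_neg, hG, Real.log_div (by positivity) (Real.exp_pos _).ne', Real.log_mul (by positivity) p2.ne',
      Real.log_mul p1.ne' (Real.exp_pos _).ne', Real.log_exp, Real.log_exp, hP]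
    unfold X
    ring
  have hFm : -F ≤ max (-F) 0 := le_max_left _ _
  have hFm0 : 0 ≤ max (-F) 0 := le_max_right _ _
  -- the luck of the two sites
  obtain ⟨z1, hz1⟩ : ∃ z1 : ℝ, z1 = |((q.1 + q.2 : ℤ) : ℝ) - 1 / 2 * ((a + n : ℕ) : ℝ)| := ⟨_, rfl⟩
  obtain ⟨z0, hz0⟩ : ∃ z0 : ℝ, z0 = |((q.1 : ℤ) : ℝ) - 1 / 2 * ((a : ℕ) : ℝ)| := ⟨_, rfl⟩
  have hz10 : 0 ≤ z1 := by rw [hz1]; exact abs_nonneg _
  have hz00 : 0 ≤ z0 := by rw [hz0]; exact abs_nonneg _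
  have htb : ∀ u : ℝ, t * u = 2 * (b / w * u) := fun u => by rw [ht]; ring
  have hbw : 0 ≤ b / w := div_nonneg hb hw0.le
  have v1 : V' ≤ Y + b + b / w * z1 := by
    have h1 := V_le_RR (μ := μ) (D := D) (b := b) (w := w) hD hb hw (N := N) (r := a + n) (m := k) (by omega)
      (by omega) η (x := q.1 + q.2) (by omega) (by push_cast; omega)
    rw [hY, hV', hz1]
    have h2 : (((a + n : ℕ) : ℤ), q.1 + q.2) = ((a : ℤ) + n, q.1 + q.2) := by push_cast; rfl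
    rw [h2] at h1
    exact h1
  have v0 : ∀ m : ℕ, m ≤ N → V μ 0 η ((a : ℤ), q.1) m ≤ Y + b + b / w * z0 := fun m hm => by
    have h1 := V_le_RR (μ := μ) (D := D) (b := b) (w := w) hD hb hw (N := N) (r := a) (m := m) (by omega)
      hm η (x := q.1) x0 x1
    rw [hY, hz0]
    exact h1
  -- the mass of the exit
  have m1 : -e ≤ M - t * z1 + V' - F := by
    have h1 : W μ 0 η 0 a q.1 * W μ 0 η ((a : ℤ), q.1) n q.2 ≤ Real.exp (M - t * z1) := by
      have h2 := W_mul_le (μ := μ) (s := 0) η 0 a n q.1 q.2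
      have h3 : ((0 : Pt).1 + (a : ℤ), (0 : Pt).2 + q.1) = ((a : ℤ), q.1) := by simp
      rw [h3] at h2
      have h4 := W_le_M1 (μ := μ) (t := t) hw0 (N := N) (r := a + n) (by omega) η (q.1 + q.2)
      rw [hM, hz1]
      exact h2.trans h4
    have h5 : Gn μ 0 η a n k q ≤ Real.exp (M - t * z1 + V' - F) := by
      rw [hG, Real.exp_sub, Real.exp_add]
      refine div_le_div_of_nonneg_right ?_ (Real.exp_pos _).le
      calc W μ 0 η 0 a q.1 * Real.exp V' * W μ 0 η ((a : ℤ), q.1) n q.2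
          = (W μ 0 η 0 a q.1 * W μ 0 η ((a : ℤ), q.1) n q.2) * Real.exp V' := by ring
        _ ≤ _ := mul_le_mul_of_nonneg_right h1 (Real.exp_pos _).le
    have h6 := Real.log_le_log hG0 h5
    rw [Real.log_exp] at h6
    rw [he]
    linarith
  -- the mass of the entrance
  have m0 : -e ≤ M - t * z0 + V μ 0 η ((a : ℤ), q.1) (n + k) - F := by
    have h1 := W_le_M1 (μ := μ) (t := t) hw0 (N := N) (r := a) (by omega) η q.1
    have h2 : W μ 0 η ((a : ℤ), q.1) n q.2 * Real.exp V' ≤ Real.exp (V μ 0 η ((a : ℤ), q.1) (n + k)) := by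
      rw [exp_V_add η ((a : ℤ), q.1) n k, hV']
      exact Finset.single_le_sum (f := fun y : ℤ => W μ 0 η ((a : ℤ), q.1) n y *
        Real.exp (V μ 0 η ((a : ℤ) + n, q.1 + y) k))
        (fun y _ => mul_nonneg (W_nonneg _ _ _ _) (Real.exp_nonneg _)) (Finset.mem_Icc.2 ⟨y0, y1⟩)
    have h5 : Gn μ 0 η a n k q ≤ Real.exp (M - t * z0 + V μ 0 η ((a : ℤ), q.1) (n + k) - F) := by
      rw [hG, Real.exp_sub, Real.exp_add]
      refine div_le_div_of_nonneg_right ?_ (Real.exp_pos _).le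
      calc W μ 0 η 0 a q.1 * Real.exp V' * W μ 0 η ((a : ℤ), q.1) n q.2
          = W μ 0 η 0 a q.1 * (W μ 0 η ((a : ℤ), q.1) n q.2 * Real.exp V') := by ring
        _ ≤ _ := by
            refine mul_le_mul ?_ h2 (mul_nonneg p2.le (Real.exp_pos _).le) (Real.exp_pos _).le
            rw [hM, hz0]
            exact h1
    have h6 := Real.log_le_log hG0 h5
    rw [Real.log_exp] at h6
    rw [he]
    linarith
  have a1 := htb z1
  have a0 := htb z0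
  -- the first factor
  have f1 : Real.log (W μ 0 η 0 a q.1) ≤ M := by
    have h1 := W_le_M1 (μ := μ) (t := t) hw0 (N := N) (r := a) (by omega) η q.1
    have h2 := Real.log_le_log p1 h1
    rw [Real.log_exp, ← hM, ← hz0, a0] at h2
    have h3 : 0 ≤ b / w * z0 := mul_nonneg hbw hz00
    linarith
  have f2 : -P ≤ V μ 0 η ((a : ℤ), q.1) n := by
    rw [hP]
    exact neg_X_le_V η _ y0 y1
  have v0n := v0 n (by omega)
  have v0k := v0 (n + k) (by omega)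
  rw [abs_le]
  constructor
  · linarith
  · linarith

/-- The square of a nonnegative number against the exponential. -/
theorem sq_le_exp {x D : ℝ} (hx : 0 ≤ x) (hD : 0 < D) : x ^ 2 ≤ 2 * D ^ 2 * Real.exp (x / D) := by
  have h1 := Real.pow_div_factorial_le_exp (x / D) (div_nonneg hx hD.le) 2
  norm_num at h1
  rw [div_pow, div_le_iff₀ (by norm_num : (0 : ℝ) < 2), div_le_iff₀ (by positivity)] at h1
  linarith

/-- The square of the logarithm. -/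
theorem log_sq_le {R D : ℝ} (hR : 0 ≤ R) : (D * Real.log (1 + R)) ^ 2 ≤ 2 * D ^ 2 * (1 + R) := by
  have h0 : 0 ≤ Real.log (1 + R) := Real.log_nonneg (by linarith)
  have h1 := sq_le_exp (x := Real.log (1 + R)) (D := 1) h0 one_pos
  rw [div_one, Real.exp_log (by linarith)] at h1
  have h2 : 0 ≤ D ^ 2 := sq_nonneg D
  calc (D * Real.log (1 + R)) ^ 2 = D ^ 2 * Real.log (1 + R) ^ 2 := by ring
    _ ≤ D ^ 2 * (2 * 1 ^ 2 * (1 + R)) := mul_le_mul_of_nonneg_left h1 h2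
    _ = _ := by ring

/-- The right side of the pointwise bound. -/
def Bd (μ : Measure ℝ) (D b w t K0 : ℝ) (N : ℕ) (η : Env) : ℝ :=
  K0 + 80 * D ^ 2 * (Real.exp (Mh μ 0 (1 / 2) t w (-(w / 2)) (4 * N) η / D) +
    Real.exp (Mh μ 0 (1 / 2) (-t) w (-(w / 2)) (4 * N) η / D)) + 40 * D ^ 2 * (1 + RR μ D b w N η) +
    20 * |V μ 0 η 0 N| ^ 2

/-- POINTWISE. -/
theorem pt_root {D b w t : ℝ} (hD : 0 < D) (hb : 0 ≤ b) (hw : 1 ≤ w) (ht : t = 2 * b / w) (η : Env) (a n k : ℕ) :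
    ∑ q ∈ Pr a n, Gn μ 0 η a n k q * X μ 0 η ((a : ℤ), q.1) n q.2 ^ 2 ≤
      Bd μ D b w t (20 * (2 * Real.log ((Pr a n).card : ℝ) ^ 2 + 4) + 20 * b ^ 2) (a + n + k) η := by
  obtain ⟨M, hM⟩ : ∃ M : ℝ, M = M1 μ t w (a + n + k) η := ⟨_, rfl⟩
  obtain ⟨Y, hY⟩ : ∃ Y : ℝ, Y = D * Real.log (1 + RR μ D b w (a + n + k) η) := ⟨_, rfl⟩
  obtain ⟨F, hF⟩ : ∃ F : ℝ, F = V μ 0 η 0 (a + n + k) := ⟨_, rfl⟩
  obtain ⟨R, hR⟩ : ∃ R : ℝ, R = RR μ D b w (a + n + k) η := ⟨_, rfl⟩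
  obtain ⟨A1, hA1⟩ : ∃ A1 : ℝ, A1 = Mh μ 0 (1 / 2) t w (-(w / 2)) (4 * (a + n + k)) η := ⟨_, rfl⟩
  obtain ⟨A2, hA2⟩ : ∃ A2 : ℝ, A2 = Mh μ 0 (1 / 2) (-t) w (-(w / 2)) (4 * (a + n + k)) η := ⟨_, rfl⟩
  have hMA : M = A1 + A2 := by
    rw [hM, hA1, hA2]
    rfl
  have n1 : 0 ≤ A1 := by rw [hA1]; exact Mh_nonneg η
  have n2 : 0 ≤ A2 := by rw [hA2]; exact Mh_nonneg η
  have hR0 : 0 ≤ R := by rw [hR]; exact RR_nonneg _ _ _ _ _
  have hBd : ∀ K0 : ℝ, Bd μ D b w t K0 (a + n + k) η = K0 + 80 * D ^ 2 * (Real.exp (A1 / D) + Real.exp (A2 / D)) +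
      40 * D ^ 2 * (1 + R) + 20 * |F| ^ 2 := fun K0 => by
    rw [hA1, hA2, hR, hF]
    rfl
  have hY2 : Y ^ 2 ≤ 2 * D ^ 2 * (1 + R) := by
    rw [hY, ← hR]
    exact log_sq_le hR0
  have hM2 : M ^ 2 ≤ 4 * D ^ 2 * (Real.exp (A1 / D) + Real.exp (A2 / D)) := by
    have h1 := sq_le_exp n1 hD
    have h2 := sq_le_exp n2 hD
    rw [hMA]
    nlinarith [sq_nonneg (A1 - A2)]
  have hF2 : max (-F) 0 ^ 2 ≤ |F| ^ 2 := by
    refine pow_le_pow_left₀ (le_max_right _ _) (max_le ?_ (abs_nonneg _)) 2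
    exact neg_le_abs F
  rw [hBd]
  have hpt : ∀ q ∈ Pr a n, Gn μ 0 η a n k q * X μ 0 η ((a : ℤ), q.1) n q.2 ^ 2 ≤
      20 * (Gn μ 0 η a n k q * (-Real.log (Gn μ 0 η a n k q)) ^ 2) +
        Gn μ 0 η a n k q * (20 * (M ^ 2 + Y ^ 2 + max (-F) 0 ^ 2 + b ^ 2)) := by
    intro q hq
    have h1 := det_root (μ := μ) hD hb hw ht η a n k hq
    rw [← hM, ← hY, ← hF] at h1
    obtain ⟨g, hg⟩ : ∃ g : ℝ, g = Gn μ 0 η a n k q := ⟨_, rfl⟩
    obtain ⟨x, hx⟩ : ∃ x : ℝ, x = X μ 0 η ((a : ℤ), q.1) n q.2 := ⟨_, rfl⟩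
    rw [← hg, ← hx] at h1 ⊢
    have hg0 : 0 ≤ g := by rw [hg]; exact Gn_nonneg η a n k q
    obtain ⟨e, he⟩ : ∃ e : ℝ, e = -Real.log g := ⟨_, rfl⟩
    obtain ⟨f, hf⟩ : ∃ f : ℝ, f = max (-F) 0 := ⟨_, rfl⟩
    rw [← he, ← hf] at h1 ⊢
    have h2 : x ^ 2 ≤ (2 * e + 2 * M + 2 * Y + 2 * b + 2 * f) ^ 2 := by
      rw [← sq_abs x]
      exact pow_le_pow_left₀ (abs_nonneg x) h1 2
    have h3 : (2 * e + 2 * M + 2 * Y + 2 * b + 2 * f) ^ 2 ≤ 20 * (e ^ 2 + M ^ 2 + Y ^ 2 + b ^ 2 + f ^ 2) := by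
      nlinarith [sq_nonneg (e - M), sq_nonneg (e - Y), sq_nonneg (e - b), sq_nonneg (e - f), sq_nonneg (M - Y),
        sq_nonneg (M - b), sq_nonneg (M - f), sq_nonneg (Y - b), sq_nonneg (Y - f), sq_nonneg (b - f)]
    calc g * x ^ 2 ≤ g * (20 * (e ^ 2 + M ^ 2 + Y ^ 2 + b ^ 2 + f ^ 2)) :=
          mul_le_mul_of_nonneg_left (h2.trans h3) hg0
      _ = _ := by ring
  have hpos : ∀ q ∈ Pr a n, 0 < Gn μ 0 η a n k q := fun q hq => by
    obtain ⟨⟨x0, x1⟩, ⟨y0, y1⟩⟩ := mem_Pr.1 hq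
    unfold Gn Aw
    exact div_pos (mul_pos (mul_pos (W_pos η 0 x0 x1) (Real.exp_pos _)) (W_pos η _ y0 y1)) (Real.exp_pos _)
  have hlog := pure_log (Pr a n) (fun q => Gn μ 0 η a n k q) hpos (Gn_sum η a n k)
  refine (Finset.sum_le_sum hpt).trans ?_
  rw [Finset.sum_add_distrib, ← Finset.mul_sum, ← Finset.sum_mul, Gn_sum, one_mul]
  linarith

variable [IsProbabilityMeasure μ] {c C : ℝ} {n₀ : ℕ}

theorem expMh_int (h : In μ c C n₀) (t w z : ℝ) (N : ℕ) (D : ℝ) :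
    Integrable (fun η : Env => Real.exp (Mh μ 0 (1 / 2) t w z (4 * N) η / D)) (law μ) := by
  have h1 := ((Sub_Mh (μ := μ) (s := 0) (v := 1 / 2) (h := t) (w := w) (z := z) (n := 4 * N)).const_mul D⁻¹).exp_int
    h.em
  refine h1.congr (Eventually.of_forall fun η => ?_)
  show Real.exp (D⁻¹ * Mh μ 0 (1 / 2) t w z (4 * N) η) = Real.exp (Mh μ 0 (1 / 2) t w z (4 * N) η / D)
  congr 1
  exact (div_eq_inv_mul _ _).symm

/-- Linearity. -/
theorem int_four {f g r v : Env → ℝ} (hf : Integrable f (law μ)) (hg : Integrable g (law μ))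
    (hr : Integrable r (law μ)) (hv : Integrable v (law μ)) (K A B D : ℝ) :
    ∫ η, (K + A * (f η + g η) + B * (1 + r η) + D * v η) ∂(law μ) =
      K + A * (∫ η, f η ∂(law μ) + ∫ η, g η ∂(law μ)) + B * (1 + ∫ η, r η ∂(law μ)) + D * ∫ η, v η ∂(law μ) := by
  have h1 : Integrable (fun η => A * (f η + g η)) (law μ) := (hf.add hg).const_mul A
  have h2 : Integrable (fun η => B * (1 + r η)) (law μ) := ((integrable_const (1 : ℝ)).add hr).const_mul B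
  have h3 : Integrable (fun η => D * v η) (law μ) := hv.const_mul D
  have h4 : Integrable (fun η => K + A * (f η + g η)) (law μ) := (integrable_const K).add h1
  have h5 : Integrable (fun η => K + A * (f η + g η) + B * (1 + r η)) (law μ) := h4.add h2
  rw [integral_add h5 h3, integral_add h4 h2, integral_add (integrable_const K) h1, integral_const_mul,
    integral_const_mul, integral_const_mul, integral_add hf hg, integral_add (integrable_const (1 : ℝ)) hr,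
    integral_const, integral_const, probReal_univ, one_smul, one_smul]

/-- (5.4) ROOTS: cost and luck of a block at the place of the polymer, in mean square. -/
theorem roots (h : In μ c C n₀) : ∃ K : ℝ, 0 ≤ K ∧ ∃ n₁ : ℕ, ∀ a n k : ℕ, n₁ ≤ a + n + k →
    ∫ η, ∑ q ∈ Pr a n, Gn μ 0 η a n k q * X μ 0 η ((a : ℤ), q.1) n q.2 ^ 2 ∂(law μ) ≤
      K * EE μ (a + n + k) ^ 2 := by
  have hc0 := h.c0
  have hC1 := h.C1
  have hC0 : 0 < C := lt_of_lt_of_le one_pos hC1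
  obtain ⟨n₂, hn₂⟩ := eventually_atTop.1 ((wd_tendsto h).eventually_ge_atTop 1)
  obtain ⟨A, hA⟩ := moments h 2
  obtain ⟨κ, hκ⟩ : ∃ κ : ℝ, κ = c / (2 * C) := ⟨_, rfl⟩
  have hκ0 : 0 < κ := by rw [hκ]; positivity
  have hsum := summable_exp_abs hκ0
  obtain ⟨G, hG⟩ : ∃ G : ℝ, G = ∑' j : ℤ, Real.exp (-(κ * |(j : ℝ)|)) := ⟨_, rfl⟩
  have hG0 : 0 ≤ G := by rw [hG]; exact tsum_nonneg fun _ => (Real.exp_pos _).le
  have hA0 : 0 ≤ A := by
    have h1 := (hA 1 le_rfl).2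
    have h2 : 0 ≤ ∫ η, |V μ 0 η 0 1| ^ 2 ∂(law μ) := integral_nonneg fun _ => by positivity
    have h3 := EE_pos (μ := μ) 1
    by_contra h4
    have h5 : A * EE μ 1 ^ 2 < 0 := mul_neg_of_neg_of_pos (not_le.1 h4) (by positivity)
    linarith
  refine ⟨20 * (2 * (4 * C) ^ 2 + 4) + 20 * (c / 2) ^ 2 + 160 * C ^ 3 + 40 * C ^ 2 * (1 + C * G) + 20 * A,
    by positivity, max (max n₀ n₂) 1, fun a n k hN => ?_⟩
  obtain ⟨N, hNd⟩ : ∃ N : ℕ, N = a + n + k := ⟨_, rfl⟩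
  rw [← hNd] at hN
  have hN0 : n₀ ≤ N := (le_max_left _ _).trans ((le_max_left _ _).trans hN)
  have hN2 : n₂ ≤ N := (le_max_right _ _).trans ((le_max_left _ _).trans hN)
  have hN1 : 1 ≤ N := (le_max_right _ _).trans hN
  obtain ⟨E, hE⟩ : ∃ E : ℝ, E = EE μ N := ⟨_, rfl⟩
  obtain ⟨w, hw⟩ : ∃ w : ℝ, w = wd μ N := ⟨_, rfl⟩
  have hE1 : 1 ≤ E := by rw [hE]; exact one_le_EE N
  have hE0 : 0 < E := by linarith
  have hw1 : 1 ≤ w := by rw [hw]; exact hn₂ N hN2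
  have hw0 : 0 < w := by linarith
  obtain ⟨D, hD⟩ : ∃ D : ℝ, D = C * E := ⟨_, rfl⟩
  have hD0 : 0 < D := by rw [hD]; positivity
  obtain ⟨b, hb⟩ : ∃ b : ℝ, b = c * E / 2 := ⟨_, rfl⟩
  have hb0 : 0 ≤ b := by rw [hb]; positivity
  obtain ⟨t, ht⟩ : ∃ t : ℝ, t = 2 * b / w := ⟨_, rfl⟩
  have ht0 : 0 ≤ t := by rw [ht]; positivity
  have htw : t * w = c * E := by rw [ht, hb]; field_simp
  obtain ⟨K0, hK0⟩ : ∃ K0 : ℝ, K0 = 20 * (2 * Real.log ((Pr a n).card : ℝ) ^ 2 + 4) + 20 * b ^ 2 := ⟨_, rfl⟩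
  -- the three luck moments
  have l1 : ∫ η, Real.exp (Mh μ 0 (1 / 2) t w (-(w / 2)) (4 * N) η / D) ∂(law μ) ≤ C := by
    rw [hD, hw, hE]
    refine h.luck N hN0 t _ ?_
    rw [abs_of_nonneg ht0, ← hw, ← hE, htw]
  have l2 : ∫ η, Real.exp (Mh μ 0 (1 / 2) (-t) w (-(w / 2)) (4 * N) η / D) ∂(law μ) ≤ C := by
    rw [hD, hw, hE]
    refine h.luck N hN0 (-t) _ ?_
    rw [abs_neg, abs_of_nonneg ht0, ← hw, ← hE, htw]
  have l3 : ∀ z : ℝ, ∫ η, Real.exp (Mh μ 0 (1 / 2) 0 w z (4 * N) η / D) ∂(law μ) ≤ C := fun z => by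
    rw [hD, hw, hE]
    refine h.luck N hN0 0 _ ?_
    rw [abs_zero, zero_mul]
    have := EE_pos (μ := μ) N
    positivity
  have i1 := expMh_int h t w (-(w / 2)) N D
  have i2 := expMh_int h (-t) w (-(w / 2)) N D
  -- the far cells
  have hterm : ∀ (j : ℤ) (η : Env), Real.exp ((Mh μ 0 (1 / 2) 0 w ((j : ℝ) * w) (4 * N) η - b * |(j : ℝ)|) / D) =
      Real.exp (-(κ * |(j : ℝ)|)) * Real.exp (Mh μ 0 (1 / 2) 0 w ((j : ℝ) * w) (4 * N) η / D) := by
    intro j η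
    rw [← Real.exp_add]
    congr 1
    have h1 : b / D = κ := by
      rw [hb, hD, hκ]
      field_simp
    rw [sub_div, mul_div_right_comm, h1]
    ring
  have iR : Integrable (fun η : Env => RR μ D b w N η) (law μ) := by
    unfold RR
    refine integrable_finsetSum _ fun j _ => ?_
    simp only [hterm]
    exact (expMh_int h 0 w _ N D).const_mul _
  have lR : ∫ η, RR μ D b w N η ∂(law μ) ≤ C * G := by
    unfold RR
    rw [integral_finsetSum _ fun j _ => by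
      simp only [hterm]
      exact (expMh_int h 0 w _ N D).const_mul _]
    have h1 : ∀ j ∈ Finset.Icc (-((N : ℤ) + 1)) ((N : ℤ) + 1),
        ∫ η, Real.exp ((Mh μ 0 (1 / 2) 0 w ((j : ℝ) * w) (4 * N) η - b * |(j : ℝ)|) / D) ∂(law μ) ≤
          C * Real.exp (-(κ * |(j : ℝ)|)) := fun j _ => by
      simp only [hterm]
      rw [integral_const_mul, mul_comm C]
      exact mul_le_mul_of_nonneg_left (l3 _) (Real.exp_pos _).le
    refine (Finset.sum_le_sum h1).trans ?_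
    rw [← Finset.mul_sum, hG]
    exact mul_le_mul_of_nonneg_left (hsum.sum_le_tsum _ fun _ _ => (Real.exp_pos _).le) hC0.le
  obtain ⟨iV, lV⟩ := hA N hN1
  -- the integral of the bound
  have iBd : Integrable (fun η => Bd μ D b w t K0 N η) (law μ) := by
    unfold Bd
    exact ((((integrable_const _).add ((i1.add i2).const_mul _))).add (((integrable_const _).add iR).const_mul _)).add
      (iV.const_mul _)
  have lBd : ∫ η, Bd μ D b w t K0 N η ∂(law μ) ≤ K0 + 80 * D ^ 2 * (C + C) + 40 * D ^ 2 * (1 + C * G) +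
      20 * (A * E ^ 2) := by
    unfold Bd
    rw [int_four i1 i2 iR iV]
    have hD2 : 0 ≤ D ^ 2 := sq_nonneg D
    have a1 := mul_le_mul_of_nonneg_left (add_le_add l1 l2) (by positivity : (0 : ℝ) ≤ 80 * D ^ 2)
    have a2 := mul_le_mul_of_nonneg_left (add_le_add_right lR 1) (by positivity : (0 : ℝ) ≤ 40 * D ^ 2)
    have a3 : 20 * ∫ η, |V μ 0 η 0 N| ^ 2 ∂(law μ) ≤ 20 * (A * E ^ 2) := by
      rw [hE]
      linarith
    linarith
  -- the logarithm of the number of positions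
  have hcard : Real.log ((Pr a n).card : ℝ) ≤ 4 * C * E ∧ 0 ≤ Real.log ((Pr a n).card : ℝ) := by
    have h1 : (Pr a n).card = (a + 1) * (n + 1) := by
      unfold Pr
      rw [Finset.card_product, Int.card_Icc, Int.card_Icc]
      congr 1
    have hNp : (1 : ℝ) ≤ N := by exact_mod_cast hN1
    have hNp0 : (0 : ℝ) < N := by linarith
    have ha : ((a : ℝ) + 1) ≤ 2 * N := by
      have : a + 1 ≤ 2 * N := by omega
      exact_mod_cast this
    have hn' : ((n : ℝ) + 1) ≤ 2 * N := by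
      have : n + 1 ≤ 2 * N := by omega
      exact_mod_cast this
    have h2 : ((Pr a n).card : ℝ) ≤ (2 * N) * (2 * N) := by
      rw [h1]
      push_cast
      exact mul_le_mul ha hn' (by positivity) (by positivity)
    have h3 : (1 : ℝ) ≤ ((Pr a n).card : ℝ) := by
      rw [h1]
      have : 1 ≤ (a + 1) * (n + 1) := Nat.one_le_iff_ne_zero.2 (by positivity)
      exact_mod_cast this
    refine ⟨?_, Real.log_nonneg h3⟩
    have h4 := Real.log_le_log (by linarith) h2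
    rw [Real.log_mul (by positivity) (by positivity), Real.log_mul (by norm_num) hNp0.ne'] at h4
    have h5 := h.lg N hN1
    rw [← hE] at h5
    have h6 : Real.log 2 ≤ 1 := by
      have := Real.log_two_lt_d9
      linarith
    have h7 : 1 ≤ C * E := one_le_mul_of_one_le_of_one_le hC1 hE1
    linarith
  have hK0' : K0 ≤ (20 * (2 * (4 * C) ^ 2 + 4) + 20 * (c / 2) ^ 2) * E ^ 2 := by
    have h1 : Real.log ((Pr a n).card : ℝ) ^ 2 ≤ (4 * C * E) ^ 2 := pow_le_pow_left₀ hcard.2 hcard.1 2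
    have h2 : 1 ≤ E ^ 2 := one_le_pow₀ hE1
    rw [hK0, hb]
    nlinarith
  have hfin : ∫ η, ∑ q ∈ Pr a n, Gn μ 0 η a n k q * X μ 0 η ((a : ℤ), q.1) n q.2 ^ 2 ∂(law μ) ≤
      ∫ η, Bd μ D b w t K0 N η ∂(law μ) := by
    refine integral_mono_of_nonneg (Eventually.of_forall fun η => ?_) iBd (Eventually.of_forall fun η => ?_)
    · exact Finset.sum_nonneg fun q _ => mul_nonneg (Gn_nonneg _ _ _ _ _) (sq_nonneg _)
    · show _ ≤ Bd μ D b w t K0 N η
      rw [hK0, hNd]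
      exact pt_root hD0 hb0 hw1 ht η a n k
  rw [← hNd, ← hE]
  refine (hfin.trans lBd).trans ?_
  rw [hD]
  calc K0 + 80 * (C * E) ^ 2 * (C + C) + 40 * (C * E) ^ 2 * (1 + C * G) + 20 * (A * E ^ 2)
      ≤ (20 * (2 * (4 * C) ^ 2 + 4) + 20 * (c / 2) ^ 2) * E ^ 2 + 80 * (C * E) ^ 2 * (C + C) +
        40 * (C * E) ^ 2 * (1 + C * G) + 20 * (A * E ^ 2) := by linarith
    _ = _ := by ring

/-- (I4) of the assembly: the costs. -/
theorem roots_pos (h : In μ c C n₀) : ∃ K : ℝ, 0 ≤ K ∧ ∃ n₁ : ℕ, ∀ a n k : ℕ, n₁ ≤ n →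
    ∫ η, ∑ q ∈ Pr a n, Gn μ 0 η a n k q * (max (X μ 0 η ((a : ℤ), q.1) n q.2) 0) ^ 2 ∂(law μ) ≤
      K * EE μ (a + n + k) ^ 2 := by
  obtain ⟨K, hK, n₁, h1⟩ := roots h
  refine ⟨K, hK, n₁, fun a n k hn => le_trans ?_ (h1 a n k (by omega))⟩
  refine integral_mono_of_nonneg (Eventually.of_forall fun η => ?_)
    (integrable_finsetSum _ fun q hq => ?_) (Eventually.of_forall fun η => ?_)
  · exact Finset.sum_nonneg fun q _ => mul_nonneg (Gn_nonneg _ _ _ _ _) (sq_nonneg _)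
  · exact integrable_Gn_mul hq ((Sub_X _ (mem_Pr.1 hq).2.1 (mem_Pr.1 hq).2.2).sq_integrable h.em)
  · refine Finset.sum_le_sum fun q _ => mul_le_mul_of_nonneg_left ?_ (Gn_nonneg _ _ _ _ _)
    rw [← sq_abs (X μ 0 η ((a : ℤ), q.1) n q.2)]
    exact pow_le_pow_left₀ (le_max_right _ _) (max_le (le_abs_self _) (abs_nonneg _)) 2

/-- The same for the lucks. -/
theorem roots_neg (h : In μ c C n₀) : ∃ K : ℝ, 0 ≤ K ∧ ∃ n₁ : ℕ, ∀ a n k : ℕ, n₁ ≤ n →
    ∫ η, ∑ q ∈ Pr a n, Gn μ 0 η a n k q * (max (-X μ 0 η ((a : ℤ), q.1) n q.2) 0) ^ 2 ∂(law μ) ≤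
      K * EE μ (a + n + k) ^ 2 := by
  obtain ⟨K, hK, n₁, h1⟩ := roots h
  refine ⟨K, hK, n₁, fun a n k hn => le_trans ?_ (h1 a n k (by omega))⟩
  refine integral_mono_of_nonneg (Eventually.of_forall fun η => ?_)
    (integrable_finsetSum _ fun q hq => ?_) (Eventually.of_forall fun η => ?_)
  · exact Finset.sum_nonneg fun q _ => mul_nonneg (Gn_nonneg _ _ _ _ _) (sq_nonneg _)
  · exact integrable_Gn_mul hq ((Sub_X _ (mem_Pr.1 hq).2.1 (mem_Pr.1 hq).2.2).sq_integrable h.em)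
  · refine Finset.sum_le_sum fun q _ => mul_le_mul_of_nonneg_left ?_ (Gn_nonneg _ _ _ _ _)
    rw [← sq_abs (X μ 0 η ((a : ℤ), q.1) n q.2)]
    exact pow_le_pow_left₀ (le_max_right _ _) (max_le (neg_le_abs _) (abs_nonneg _)) 2

end

end Pool.Agent.W_7d29a1_X97
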